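import Pool.Agent.Helper79.OWN.GGC2

/-!
MP_9f3825_pr: for all `α₁, α₂ > 0` and all `s ≥ 1` the random variable `B ^ (-s)`, where `B` has the
law Beta(`α₁`, `α₂`), is a generalized gamma convolution, with drift `1` and a Thorin measure of
total mass `α₂`, and its law is a weak limit of laws of finite sums of independent gamma variables.
-/

set_option autoImplicit false

open MeasureTheory ProbabilityTheory Filter Topology Set
open Pool.Agent.Helper79.OWN.GGC

namespace Pool.Agent.Results.MP_9f3825_pr.NegativePowersOfBeta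

theorem result {Ω : Type*} [MeasurableSpace Ω] (P : Measure Ω) (B : Ω → ℝ) (α₁ α₂ s : ℝ)
    (h₁ : 0 < α₁) (h₂ : 0 < α₂) (hs : 1 ≤ s) (hB : HasLaw B (betaMeasure α₁ α₂) P) :
    (∃ U : Measure ℝ, IsGGC (P.map (fun ω => B ω ^ (-s))) 1 U ∧ U univ = ENNReal.ofReal α₂) ∧
    ∃ ν : ℕ → ProbabilityMeasure ℝ, (∀ n, GammaSum (ν n : Measure ℝ)) ∧
      ∀ f : BoundedContinuousFunction ℝ ℝ,
        Tendsto (fun n => ∫ x, f x ∂(ν n : Measure ℝ)) atTop
          (𝓝 (∫ x, f x ∂(P.map (fun ω => B ω ^ (-s))))) := by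
  have hm : Measurable (fun x : ℝ => x ^ (-s)) := by fun_prop
  have hmap : P.map (fun ω => B ω ^ (-s)) = (betaMeasure α₁ α₂).map (fun x => x ^ (-s)) := by
    rw [← hB.map_eq, AEMeasurable.map_map_of_aemeasurable hm.aemeasurable hB.aemeasurable]
    rfl
  rw [hmap]
  have := isProbabilityMeasureBeta h₁ h₂
  have hp : IsProbabilityMeasure ((betaMeasure α₁ α₂).map (fun x => x ^ (-s))) :=
    Measure.isProbabilityMeasure_map hm.aemeasurable
  obtain ⟨a, ha, U, h0, hi, hlap⟩ := laplace_main h₁ h₂ hs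
  obtain ⟨rfl, hU⟩ := drift_mass h₁ h₂ hs h0 hi hlap
  have hpos : ∀ᵐ x ∂((betaMeasure α₁ α₂).map (fun x => x ^ (-s))), 0 < x := by
    rw [ae_map_iff hm.aemeasurable measurableSet_Ioi]
    filter_upwards [beta_ae] with x hx
    exact Real.rpow_pos_of_pos hx.1 _
  constructor
  · refine ⟨U, ⟨hp, ?_, ha, h0, thorin_log hi, thorin_inv hi, fun l hl => ?_⟩, hU⟩
    · rw [ae_iff] at hpos
      convert hpos using 2
      ext x
      simp
    · rw [hlap l hl, Measure.restrict_eq_self_of_ae_mem (s := Ioi (0 : ℝ)) (ae_pos h0)]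
  · obtain ⟨ν, hν, hlim⟩ := weak_limit (hpos.mono fun _ hx => hx.le) one_pos h0 hi hlap
    exact ⟨fun n => ⟨ν n, (hν n).prob⟩, hν, hlim⟩

end Pool.Agent.Results.MP_9f3825_pr.NegativePowersOfBeta
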